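import Pool.Agent.H30.HEP.Conv

/-!
# Hyperbolic and elliptic lines on split cubic surfaces over finite fields

For every odd prime power `q` we determine all pairs `(H, E)` of numbers of hyperbolic and elliptic
lines on the cubic surfaces over the field with `q` elements all of whose 27 lines are rational:
`(27, 0)` occurs exactly for `q ≥ 7`, `(15, 12)` exactly for `q ≥ 9`, `(11, 16)` exactly for
`q ≥ 17`, and no other pair occurs.
-/

open Pool.Agent.H30.HEP

namespace Pool.Agent.Results.MP_f18d96_ag.HyperbolicEllipticPairs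

theorem result (F : Type) [Field F] [Fintype F] (h2 : (2 : F) ≠ 0) (H E : ℕ) :
    (∃ f : MvPolynomial (Fin 4) F, IsSplitCubic (AlgebraicClosure F) f ∧
      numHyperbolic (AlgebraicClosure F) f = H ∧ numElliptic (AlgebraicClosure F) f = E) ↔
    (7 ≤ Fintype.card F ∧ H = 27 ∧ E = 0) ∨ (9 ≤ Fintype.card F ∧ H = 15 ∧ E = 12) ∨
      (17 ≤ Fintype.card F ∧ H = 11 ∧ E = 16) :=
  main F h2 H E

end Pool.Agent.Results.MP_f18d96_ag.HyperbolicEllipticPairs
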